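import Pool.Agent.H563.DJ.Haxell

/-!
# Systems of representatives with bounded load, for families with small pairwise intersections on average
-/

set_option autoImplicit false

namespace Pool.Agent.H563.QA

open Finset

/-- the second moment -/
lemma second_abs {K₁ κ D Q : ℝ} (hK₁ : 0 < K₁) (hκ : 0 < κ) (hD : 0 < D) (S R : Finset ℕ)
    (A : ℕ → Finset ℕ) (O : ℕ → ℝ) (g : ℕ → ℕ → ℝ) (hO : ∀ a ∈ S, 0 < O a)
    (h2 : ∀ a ∈ S, ((A a).card : ℝ) ≤ K₁ * O a)
    (h3 : ∀ a ∈ S, ∀ b ∈ S, a ≠ b → ((A a ∩ A b).card : ℝ) ≤ K₁ * (O a * O b / D * g a b))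
    (h4 : ∀ a ∈ S, ∑ b ∈ S.erase a, g a b ≤ Q)
    (hR : ∀ a ∈ S, κ * O a ≤ ((R ∩ A a).card : ℝ)) :
    κ ^ 2 * (S.card : ℝ) ^ 2 ≤ R.card * (K₁ * (∑ a ∈ S, 1 / O a + S.card * Q / D)) := by
  classical
  obtain ⟨f, hf⟩ : ∃ f : ℕ → ℝ, f = fun p => ∑ a ∈ S, if p ∈ A a then 1 / O a else 0 := ⟨_, rfl⟩
  have h5 : κ * S.card ≤ ∑ p ∈ R, f p := by
    have e : ∑ p ∈ R, f p = ∑ a ∈ S, 1 / O a * ((R ∩ A a).card : ℝ) := by
      rw [hf, sum_comm]
      apply sum_congr rfl
      intro a _
      rw [← sum_filter, sum_const, nsmul_eq_mul, filter_mem_eq_inter]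
      ring
    rw [e]
    calc κ * S.card = ∑ _a ∈ S, κ := by rw [sum_const, nsmul_eq_mul]; ring
      _ ≤ _ := by
          apply sum_le_sum
          intro a ha
          have p := hO a ha
          calc κ = 1 / O a * (κ * O a) := by field_simp
            _ ≤ _ := mul_le_mul_of_nonneg_left (hR a ha) (by positivity)
  have h6 : (∑ p ∈ R, f p) ^ 2 ≤ R.card * ∑ p ∈ R, f p ^ 2 := sq_sum_le_card_mul_sum_sq
  obtain ⟨U, hU⟩ : ∃ U, U = S.biUnion A := ⟨_, rfl⟩
  have hTU : ∀ a ∈ S, A a ⊆ U := by
    intro a ha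
    rw [hU]
    exact subset_biUnion_of_mem A ha
  have h7 : ∑ p ∈ R, f p ^ 2 ≤ ∑ p ∈ U, f p ^ 2 := by
    have e : ∑ p ∈ R, f p ^ 2 = ∑ p ∈ R.filter (fun p => p ∈ U), f p ^ 2 := by
      symm
      apply sum_filter_of_ne
      intro p _ hp
      by_contra hcon
      apply hp
      have : f p = 0 := by
        rw [hf]
        apply sum_eq_zero
        intro a ha
        rw [if_neg]
        exact fun h => hcon (hTU a ha h)
      rw [this]
      norm_num
    rw [e]
    apply sum_le_sum_of_subset_of_nonneg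
    · intro p hp
      exact (mem_filter.1 hp).2
    · intro p _ _
      positivity
  have h8 : ∑ p ∈ U, f p ^ 2 = ∑ a ∈ S, ∑ b ∈ S, 1 / O a * (1 / O b) * ((A a ∩ A b).card : ℝ) := by
    have e1 : ∀ p ∈ U, f p ^ 2 = ∑ a ∈ S, ∑ b ∈ S,
        if p ∈ A a ∩ A b then 1 / O a * (1 / O b) else 0 := by
      intro p _
      rw [hf]
      dsimp only
      rw [pow_two, sum_mul_sum]
      apply sum_congr rfl
      intro a _
      apply sum_congr rfl
      intro b _
      by_cases c1 : p ∈ A a
      · by_cases c2 : p ∈ A b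
        · rw [if_pos c1, if_pos c2, if_pos (mem_inter.2 ⟨c1, c2⟩)]
        · rw [if_neg c2, if_neg (fun h => c2 (mem_inter.1 h).2), mul_zero]
      · rw [if_neg c1, if_neg (fun h => c1 (mem_inter.1 h).1), zero_mul]
    rw [sum_congr rfl e1, sum_comm]
    apply sum_congr rfl
    intro a ha
    rw [sum_comm]
    apply sum_congr rfl
    intro b _
    rw [← sum_filter, sum_const, nsmul_eq_mul]
    have e2 : U.filter (fun p => p ∈ A a ∩ A b) = A a ∩ A b := by
      ext p
      rw [mem_filter]
      constructor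
      · exact fun h => h.2
      · exact fun h => ⟨hTU a ha (mem_inter.1 h).1, h⟩
    rw [e2]
    ring
  have h9 : ∀ a ∈ S, ∑ b ∈ S, 1 / O a * (1 / O b) * ((A a ∩ A b).card : ℝ) ≤ K₁ * (1 / O a + Q / D) := by
    intro a ha
    have pa := hO a ha
    rw [← add_sum_erase S _ ha]
    have k1 : 1 / O a * (1 / O a) * ((A a ∩ A a).card : ℝ) ≤ K₁ * (1 / O a) := by
      rw [inter_self]
      calc 1 / O a * (1 / O a) * ((A a).card : ℝ) ≤ 1 / O a * (1 / O a) * (K₁ * O a) :=
            mul_le_mul_of_nonneg_left (h2 a ha) (by positivity)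
        _ = _ := by field_simp
    have k2 : ∑ b ∈ S.erase a, 1 / O a * (1 / O b) * ((A a ∩ A b).card : ℝ) ≤ K₁ * (Q / D) := by
      calc ∑ b ∈ S.erase a, 1 / O a * (1 / O b) * ((A a ∩ A b).card : ℝ)
          ≤ ∑ b ∈ S.erase a, K₁ / D * g a b := by
            apply sum_le_sum
            intro b hb
            rw [mem_erase] at hb
            have pb := hO b hb.2
            calc 1 / O a * (1 / O b) * ((A a ∩ A b).card : ℝ) ≤
                1 / O a * (1 / O b) * (K₁ * (O a * O b / D * g a b)) :=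
                  mul_le_mul_of_nonneg_left (h3 a ha b hb.2 hb.1.symm) (by positivity)
              _ = _ := by field_simp
        _ = K₁ / D * ∑ b ∈ S.erase a, g a b := by rw [mul_sum]
        _ ≤ K₁ / D * Q := mul_le_mul_of_nonneg_left (h4 a ha) (by positivity)
        _ = _ := by ring
    linarith
  have h10 : ∑ a ∈ S, ∑ b ∈ S, 1 / O a * (1 / O b) * ((A a ∩ A b).card : ℝ) ≤
      K₁ * (∑ a ∈ S, 1 / O a + S.card * Q / D) := by
    refine (sum_le_sum h9).trans (le_of_eq ?_)
    rw [← mul_sum, sum_add_distrib, sum_const, nsmul_eq_mul]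
    ring
  calc κ ^ 2 * (S.card : ℝ) ^ 2 = (κ * S.card) ^ 2 := by ring
    _ ≤ (∑ p ∈ R, f p) ^ 2 := pow_le_pow_left₀ (by positivity) h5 2
    _ ≤ R.card * ∑ p ∈ R, f p ^ 2 := h6
    _ ≤ R.card * (K₁ * (∑ a ∈ S, 1 / O a + S.card * Q / D)) := by
        apply mul_le_mul_of_nonneg_left _ (Nat.cast_nonneg _)
        rw [← h8] at h10
        exact h7.trans h10

/-- systems with bounded load -/
lemma load_abs {δ K₁ : ℝ} (hδ : 0 < δ) (hK₁ : 0 < K₁) : ∃ c : ℝ, 0 < c ∧ ∀ (S : Finset ℕ) (A : ℕ → Finset ℕ)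
    (O : ℕ → ℝ) (g : ℕ → ℕ → ℝ) (D Q : ℝ) (t K : ℕ), 0 < D → 1 ≤ K → (∀ a ∈ S, 0 < O a) →
    (∀ a b, 0 ≤ g a b) → (∀ a ∈ S, δ * O a ≤ (A a).card) → (∀ a ∈ S, ((A a).card : ℝ) ≤ K₁ * O a) →
    (∀ a ∈ S, ∀ b ∈ S, a ≠ b → ((A a ∩ A b).card : ℝ) ≤ K₁ * (O a * O b / D * g a b)) →
    (∀ a ∈ S, ∑ b ∈ S.erase a, g a b ≤ Q) → (∀ a ∈ S, (t : ℝ) ≤ c * O a) → t * Q ≤ c * K * D →
    ∃ p : ℕ → ℕ → ℕ, (∀ a ∈ S, ∀ i < t, p a i ∈ A a) ∧ (∀ a ∈ S, ∀ i < t, ∀ j < t, p a i = p a j → i = j) ∧
      ∀ v, ((S ×ˢ range t).filter (fun y => p y.1 y.2 = v)).card ≤ K := by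
  classical
  obtain ⟨c, hc⟩ : ∃ c, c = min (δ / 16) (δ ^ 2 / (128 * K₁)) := ⟨_, rfl⟩
  have hc0 : 0 < c := by rw [hc]; positivity
  have hc1 : c ≤ δ / 16 := by rw [hc]; exact min_le_left _ _
  have hc2 : c ≤ δ ^ 2 / (128 * K₁) := by rw [hc]; exact min_le_right _ _
  rw [le_div_iff₀ (by positivity)] at hc2
  refine ⟨c, hc0, ?_⟩
  intro S A O g D Q t K hD hK hO hg hl h2 h3 h4 ht hQ
  have hKr : (1 : ℝ) ≤ K := by exact_mod_cast hK
  have hK0 : (0 : ℝ) < K := by linarith
  obtain ⟨f, hf1, hf2⟩ := Pool.Agent.H563.DJ.haxell (α := ℕ × ℕ × ℕ)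
    (fun (y : ℕ × ℕ) (e : Finset (ℕ × ℕ × ℕ)) => ∃ p i : ℕ, p ∈ A y.1 ∧ i < K ∧
      e = {(0, p, i), (1, y.1, p)}) 2 (by
      rintro y e ⟨p, i, _, _, rfl⟩
      exact card_le_two) (S ×ˢ range t) (by
      intro 𝒮 h𝒮 hne U hU
      by_contra hcon
      push Not at hcon
      obtain ⟨B, hB⟩ : ∃ B, B = 𝒮.image Prod.fst := ⟨_, rfl⟩
      have hBS : B ⊆ S := by
        intro n hn
        rw [hB, mem_image] at hn
        obtain ⟨y, hy, rfl⟩ := hn
        exact (mem_product.1 (h𝒮 hy)).1
      have hBpos : 1 ≤ B.card := by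
        rw [hB]
        exact card_pos.2 (hne.image _)
      have ht1 : 1 ≤ t := by
        obtain ⟨y, hy⟩ := hne
        have := mem_range.1 (mem_product.1 (h𝒮 hy)).2
        omega
      have ht1r : (1 : ℝ) ≤ t := by exact_mod_cast ht1
      have h𝒮B : 𝒮.card ≤ B.card * t := by
        have : 𝒮 ⊆ B ×ˢ range t := by
          intro y hy
          rw [mem_product]
          exact ⟨by rw [hB]; exact mem_image_of_mem _ hy, (mem_product.1 (h𝒮 hy)).2⟩
        have h2 := card_le_card this
        rwa [card_product, card_range] at h2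
      -- the blocked integers
      obtain ⟨R, hR⟩ : ∃ R : Finset ℕ, R = (U.image (fun u => u.2.1)).filter (fun v => ∀ i < K, (0, v, i) ∈ U) := ⟨_, rfl⟩
      have hRm : ∀ v, v ∈ R ↔ ∀ i < K, (0, v, i) ∈ U := by
        intro v
        rw [hR, mem_filter, mem_image]
        constructor
        · exact fun h => h.2
        · intro h
          exact ⟨⟨(0, v, 0), h 0 (by omega), rfl⟩, h⟩
      have hRc : K * R.card ≤ U.card := by
        have h1 : (R ×ˢ range K).card ≤ U.card := by
          apply card_le_card_of_injOn (fun y => ((0 : ℕ), y.1, y.2))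
          · rintro ⟨v, i⟩ hy
            rw [mem_coe, mem_product, mem_range] at hy
            exact mem_coe.2 ((hRm v).1 hy.1 i hy.2)
          · rintro ⟨v, i⟩ _ ⟨v', i'⟩ _ h
            simp only [Prod.mk.injEq, true_and] at h
            rw [h.1, h.2]
        rw [card_product, card_range, mul_comm] at h1
        exact h1
      obtain ⟨F, hF⟩ : ∃ F : ℕ → Finset ℕ, F = fun N => (A N).filter (fun p => (1, N, p) ∈ U) := ⟨_, rfl⟩
      have hFc : ∑ N ∈ B, (F N).card ≤ U.card := by
        rw [← card_sigma]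
        apply card_le_card_of_injOn (fun y : (_ : ℕ) × ℕ => ((1 : ℕ), y.1, y.2))
        · rintro ⟨N, p⟩ hy
          rw [mem_coe, mem_sigma, hF] at hy
          simp only [mem_filter] at hy
          exact mem_coe.2 hy.2.2
        · rintro ⟨N, p⟩ _ ⟨N', p'⟩ _ h
          simp only [Prod.mk.injEq, true_and] at h
          rw [h.1, h.2]
      have hcov : ∀ N ∈ B, ((A N).card : ℝ) ≤ ((F N).card : ℝ) + ((R ∩ A N).card : ℝ) := by
        intro N hN
        have h1 : A N ⊆ F N ∪ (R ∩ A N) := by
          intro p hp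
          rw [hB, mem_image] at hN
          obtain ⟨y, hy, rfl⟩ := hN
          rw [mem_union, mem_inter, hF]
          simp only [mem_filter]
          by_contra hnot
          push Not at hnot
          obtain ⟨g1, g2⟩ := hnot
          have g1' : (1, y.1, p) ∉ U := g1 hp
          have g2' : p ∉ R := fun h => g2 h hp
          rw [hRm] at g2'
          push Not at g2'
          obtain ⟨i, hi, hi'⟩ := g2'
          have h2 := hcon y hy {(0, p, i), (1, y.1, p)} ⟨p, i, hp, hi, rfl⟩
          rw [not_disjoint_iff] at h2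
          obtain ⟨a, ha, haU⟩ := h2
          rw [mem_insert, mem_singleton] at ha
          rcases ha with rfl | rfl
          · exact hi' haU
          · exact g1' haU
        have h2 := (card_le_card h1).trans (card_union_le _ _)
        exact_mod_cast h2
      obtain ⟨B₀, hB₀⟩ : ∃ B₀, B₀ = B.filter (fun N => δ / 2 * O N ≤ ((F N).card : ℝ)) := ⟨_, rfl⟩
      obtain ⟨B₁, hB₁⟩ : ∃ B₁, B₁ = B.filter (fun N => δ / 2 * O N ≤ ((R ∩ A N).card : ℝ)) := ⟨_, rfl⟩
      have hBB : B.card ≤ B₀.card + B₁.card := by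
        have h1 : B ⊆ B₀ ∪ B₁ := by
          intro N hN
          rw [hB₀, hB₁, mem_union, mem_filter, mem_filter]
          have h2 := hcov N hN
          have h3 := hl N (hBS hN)
          by_contra h4
          push Not at h4
          have h5 := h4.1 hN
          have h6 := h4.2 hN
          linarith
        exact (card_le_card h1).trans (card_union_le _ _)
      have hU6 : U.card ≤ 4 * (B.card * t) := by
        have h1 : U.card ≤ 4 * 𝒮.card := by omega
        exact h1.trans (Nat.mul_le_mul_left 4 h𝒮B)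
      have hU6r : (U.card : ℝ) ≤ 4 * (B.card * t) := by exact_mod_cast hU6
      have hB0 : (0 : ℝ) < B.card := by exact_mod_cast hBpos
      have hB₀c : 2 * B₀.card ≤ B.card := by
        have h1 : (B₀.card : ℝ) * (δ / 2 * (t / c)) ≤ U.card := by
          calc (B₀.card : ℝ) * (δ / 2 * (t / c)) = ∑ _N ∈ B₀, δ / 2 * (t / c) := by
                rw [sum_const, nsmul_eq_mul]
            _ ≤ ∑ N ∈ B₀, ((F N).card : ℝ) := by
                apply sum_le_sum
                intro N hN
                rw [hB₀, mem_filter] at hN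
                refine le_trans ?_ hN.2
                apply mul_le_mul_of_nonneg_left _ (by positivity)
                rw [div_le_iff₀ hc0]
                have := ht N (hBS hN.1)
                linarith
            _ ≤ ∑ N ∈ B, ((F N).card : ℝ) := by
                apply sum_le_sum_of_subset_of_nonneg
                · rw [hB₀]; exact filter_subset _ _
                · intro _ _ _; positivity
            _ ≤ _ := by exact_mod_cast hFc
        have h3 : (B₀.card : ℝ) * (δ / 2) ≤ 4 * B.card * c := by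
          have h4 := h1.trans hU6r
          have h5 : (B₀.card : ℝ) * (δ / 2 * (t / c)) = (B₀.card : ℝ) * (δ / 2) * (t / c) := by ring
          have h6 : 4 * ((B.card : ℝ) * t) = (4 * B.card * c) * (t / c) := by field_simp
          rw [h5, h6] at h4
          exact le_of_mul_le_mul_right h4 (by positivity)
        have h4 : 4 * (B.card : ℝ) * c ≤ 4 * B.card * (δ / 16) := mul_le_mul_of_nonneg_left hc1 (by positivity)
        have h5 : 2 * (B₀.card : ℝ) ≤ B.card := by
          have h6 : (B₀.card : ℝ) * (δ / 2) ≤ (B.card / 2) * (δ / 2) := by linarith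
          have := le_of_mul_le_mul_right h6 (by positivity)
          linarith
        exact_mod_cast h5
      have hc1' : B.card ≤ 2 * B₁.card := by omega
      have hm1 : 1 ≤ B₁.card := by omega
      have hsub : B₁ ⊆ S := (by rw [hB₁]; exact filter_subset _ _ : B₁ ⊆ B).trans hBS
      have hm0 : (0 : ℝ) < B₁.card := by exact_mod_cast hm1
      have key := second_abs hK₁ (show 0 < δ / 2 by positivity) hD B₁ R A O g (fun a ha => hO a (hsub ha))
        (fun a ha => h2 a (hsub ha)) (fun a ha b hb => h3 a (hsub ha) b (hsub hb)) (Q := Q)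
        (fun a ha => le_trans (sum_le_sum_of_subset_of_nonneg (erase_subset_erase a hsub) (fun b _ _ => hg a b))
          (h4 a (hsub ha)))
        (fun a ha => by
          rw [hB₁, mem_filter] at ha
          exact ha.2)
      have hsum : ∑ a ∈ B₁, 1 / O a ≤ B₁.card * (c / t) := by
        calc ∑ a ∈ B₁, 1 / O a ≤ ∑ _a ∈ B₁, c / t := by
              apply sum_le_sum
              intro a ha
              have h5 := ht a (hsub ha)
              have h6 := hO a (hsub ha)
              rw [div_le_div_iff₀ h6 (by linarith)]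
              linarith
          _ = _ := by rw [sum_const, nsmul_eq_mul]
      have hRr : (R.card : ℝ) ≤ 8 * t * B₁.card / K := by
        rw [le_div_iff₀ hK0]
        have h5 : K * R.card ≤ 8 * (t * B₁.card) := by
          calc K * R.card ≤ U.card := hRc
            _ ≤ 4 * (B.card * t) := hU6
            _ ≤ 4 * (2 * B₁.card * t) := Nat.mul_le_mul_left 4 (Nat.mul_le_mul_right t hc1')
            _ = 8 * (t * B₁.card) := by ring
        have h6 : (K : ℝ) * R.card ≤ 8 * (t * B₁.card) := by exact_mod_cast h5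
        linarith
      have hQ0 : 0 ≤ Q := by
        obtain ⟨a, ha⟩ := card_pos.1 hm1
        exact le_trans (sum_nonneg fun b _ => hg a b) (h4 a (hsub ha))
      have hfin : (R.card : ℝ) * (K₁ * (∑ a ∈ B₁, 1 / O a + B₁.card * Q / D)) ≤ 16 * K₁ * c * (B₁.card : ℝ) ^ 2 := by
        calc (R.card : ℝ) * (K₁ * (∑ a ∈ B₁, 1 / O a + B₁.card * Q / D))
            ≤ (8 * t * B₁.card / K) * (K₁ * (B₁.card * (c / t) + B₁.card * Q / D)) := by
              have : 0 ≤ ∑ a ∈ B₁, 1 / O a := sum_nonneg fun a ha => by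
                have := hO a (hsub ha)
                positivity
              gcongr
          _ = 8 * K₁ * (B₁.card : ℝ) ^ 2 * (c / K + t * Q / (K * D)) := by
              field_simp
          _ ≤ 8 * K₁ * (B₁.card : ℝ) ^ 2 * (c + c) := by
              apply mul_le_mul_of_nonneg_left _ (by positivity)
              apply add_le_add
              · rw [div_le_iff₀ hK0]
                nlinarith
              · rw [div_le_iff₀ (by positivity)]
                linarith
          _ = _ := by ring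
      have h7 := key.trans hfin
      have h8 : (16 * K₁ * c) * (B₁.card : ℝ) ^ 2 < (δ / 2) ^ 2 * (B₁.card : ℝ) ^ 2 := by
        apply mul_lt_mul_of_pos_right _ (by positivity)
        have : 0 < δ ^ 2 := by positivity
        nlinarith
      linarith)
  choose! p i hp using hf1
  refine ⟨fun n k => p (n, k), ?_, ?_, ?_⟩
  · intro n hn k hk
    exact (hp (n, k) (mem_product.2 ⟨hn, mem_range.2 hk⟩)).1
  · intro n hn k hk k' hk' h
    by_contra hne
    have k1 : (n, k) ∈ S ×ˢ range t := mem_product.2 ⟨hn, mem_range.2 hk⟩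
    have k2 : (n, k') ∈ S ×ˢ range t := mem_product.2 ⟨hn, mem_range.2 hk'⟩
    have h5 := (hp (n, k) k1).2.2
    have h6 := (hp (n, k') k2).2.2
    have h7 := hf2 (n, k) k1 (n, k') k2 (fun h => hne (Prod.mk.inj h).2)
    rw [h5, h6, disjoint_left] at h7
    apply h7 (show (1, n, p (n, k)) ∈ _ by simp)
    have h8 : p (n, k) = p (n, k') := h
    rw [h8]
    simp
  · intro v
    obtain ⟨V, hV⟩ : ∃ V, V = (S ×ˢ range t).filter (fun y => p (y.1, y.2) = v) := ⟨_, rfl⟩
    have hgoal : V.card ≤ (range K).card := by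
      have hVm : ∀ y ∈ V, y ∈ S ×ˢ range t ∧ p y = v := by
        intro y hy
        rw [hV, mem_filter] at hy
        exact hy
      apply card_le_card_of_injOn i
      · intro y hy
        rw [mem_coe] at hy
        obtain ⟨h1, h2⟩ := hVm y hy
        rw [mem_coe, mem_range]
        exact (hp y h1).2.1
      · intro y hy y' hy' hyy
        rw [mem_coe] at hy hy'
        obtain ⟨h1, h2⟩ := hVm y hy
        obtain ⟨h1', h2'⟩ := hVm y' hy'
        by_contra hne
        have h5 := (hp y h1).2.2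
        have h6 := (hp y' h1').2.2
        have h7 := hf2 y h1 y' h1' hne
        rw [h5, h6, disjoint_left, h2, h2', hyy] at h7
        exact h7 (mem_insert_self _ _) (mem_insert_self _ _)
    rw [card_range, hV] at hgoal
    exact hgoal

end Pool.Agent.H563.QA
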