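import Pool.Graph.R_pool_sql_team_seeded_c8625f6e.K4H8.DP.Mom1

/-!
# Sums of `(m / φ(m)) ^ 2` over arbitrary sets
-/

set_option autoImplicit false

namespace Pool.Agent.H563.QA

open Finset
open Pool.Agent.K4H8.DP

/-- the sum of `(m / φ(m)) ^ 2` over an arbitrary set of at most `M` numbers up to `X` -/
lemma avg_sq (a : ℝ) (ha : 0 < a) (hW : ∀ K : ℕ, 2 ≤ K → W1 K ≤ a * Real.log K) (X M : ℕ) (hM : 1 ≤ M)
    (hMX : M ≤ X) (D : Finset ℕ) (hD : D ⊆ Icc 1 X) (hDM : D.card ≤ M) :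
    ∑ m ∈ D, hh m ^ 2 ≤ 9 * Real.exp 1 * a ^ 2 * (M * (1 + Real.log (1 + Real.log ((X : ℝ) / M))) ^ 2) := by
  obtain ⟨L, hL⟩ : ∃ L, L = Real.log ((X : ℝ) / M) := ⟨_, rfl⟩
  rw [← hL]
  have hM0 : (0 : ℝ) < M := by exact_mod_cast hM
  have hXM : (M : ℝ) ≤ X := by exact_mod_cast hMX
  have hX0 : (0 : ℝ) < X := by linarith
  have hL0 : 0 ≤ L := by
    rw [hL]
    apply Real.log_nonneg
    rw [le_div_iff₀ hM0]
    linarith
  have hXL : (X : ℝ) = M * Real.exp L := by
    rw [hL, Real.exp_log (by positivity)]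
    field_simp
  obtain ⟨k, hk⟩ : ∃ k : ℕ, k = ⌈L⌉₊ + 2 := ⟨_, rfl⟩
  have hkL : L + 2 ≤ k := by
    rw [hk]
    push_cast
    linarith [Nat.le_ceil L]
  have hkL2 : (k : ℝ) + 1 ≤ L + 4 := by
    rw [hk]
    push_cast
    linarith [Nat.ceil_lt_add_one hL0]
  have h0 : ∀ m, 0 ≤ hh m := fun m => by linarith [one_le_hh m]
  have h1 : (∑ m ∈ D, hh m ^ 2) ^ k ≤ (D.card : ℝ) ^ (k - 1) * ∑ m ∈ D, (hh m ^ 2) ^ k := by
    have := pow_sum_le_card_mul_sum_pow (s := D) (f := fun m => hh m ^ 2) (fun m _ => by positivity) (k - 1)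
    rw [show k - 1 + 1 = k by omega] at this
    exact this
  have h2 : ∑ m ∈ D, (hh m ^ 2) ^ k ≤ X * (W1 (2 * k + 1) ^ (2 * k) * Real.exp 2) := by
    refine le_trans ?_ (moment (2 * k) X (by omega))
    have e : ∀ m ∈ D, (hh m ^ 2) ^ k = hh m ^ (2 * k) := fun m _ => (pow_mul _ _ _).symm
    rw [sum_congr rfl e]
    exact sum_le_sum_of_subset_of_nonneg hD fun m _ _ => pow_nonneg (h0 m) _
  have hW1 : 0 ≤ W1 (2 * k + 1) := by linarith [W1_one_le (2 * k + 1)]
  have h3 : (∑ m ∈ D, hh m ^ 2) ^ k ≤ (M * Real.exp 1 * W1 (2 * k + 1) ^ 2) ^ k := by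
    calc (∑ m ∈ D, hh m ^ 2) ^ k ≤ (D.card : ℝ) ^ (k - 1) * ∑ m ∈ D, (hh m ^ 2) ^ k := h1
      _ ≤ (M : ℝ) ^ (k - 1) * (X * (W1 (2 * k + 1) ^ (2 * k) * Real.exp 2)) := by
          apply mul_le_mul _ h2 (sum_nonneg fun m _ => by positivity) (by positivity)
          exact pow_le_pow_left₀ (Nat.cast_nonneg _) (by exact_mod_cast hDM) _
      _ = (M : ℝ) ^ (k - 1 + 1) * Real.exp (L + 2) * W1 (2 * k + 1) ^ (2 * k) := by
          rw [hXL, Real.exp_add, pow_succ]
          ring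
      _ ≤ (M : ℝ) ^ k * Real.exp 1 ^ k * W1 (2 * k + 1) ^ (2 * k) := by
          rw [show k - 1 + 1 = k by omega, ← Real.exp_nat_mul, mul_one]
          gcongr
      _ = _ := by rw [mul_pow, mul_pow, ← pow_mul]
  have h4 : ∑ m ∈ D, hh m ^ 2 ≤ M * Real.exp 1 * W1 (2 * k + 1) ^ 2 :=
    le_of_pow_le_pow_left₀ (by omega) (by positivity) h3
  refine h4.trans ?_
  have h8 : 0 ≤ Real.log (1 + L) := Real.log_nonneg (by linarith)
  have h5 : W1 (2 * k + 1) ≤ a * (3 * (1 + Real.log (1 + L))) := by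
    refine (hW (2 * k + 1) (by omega)).trans ?_
    apply mul_le_mul_of_nonneg_left _ ha.le
    have h6 : Real.log ((2 * k + 1 : ℕ) : ℝ) ≤ Real.log (8 * (1 + L)) := by
      apply Real.log_le_log (by positivity)
      push_cast
      linarith
    refine h6.trans ?_
    rw [Real.log_mul (by norm_num) (by linarith)]
    have h7 : Real.log 8 ≤ 3 := by
      have : Real.log 8 = 3 * Real.log 2 := by
        rw [show (8 : ℝ) = 2 ^ 3 by norm_num, Real.log_pow]
        norm_num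
      rw [this]
      linarith [Real.log_two_lt_d9]
    linarith
  have h9 : W1 (2 * k + 1) ^ 2 ≤ (a * (3 * (1 + Real.log (1 + L)))) ^ 2 := pow_le_pow_left₀ hW1 h5 2
  calc M * Real.exp 1 * W1 (2 * k + 1) ^ 2 ≤ M * Real.exp 1 * (a * (3 * (1 + Real.log (1 + L)))) ^ 2 := by
        gcongr
    _ = _ := by ring

/-- the distance -/
def dist' (a b : ℕ) : ℕ := (a - b) + (b - a)

/-- the sum over the other elements of a set -/
lemma avg_set (w : ℝ) (hw : 0 < w) (hW : ∀ K : ℕ, 2 ≤ K → W1 K ≤ w * Real.log K) (A₀ A : ℕ)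
    (S : Finset ℕ) (hS : S ⊆ Ioc A₀ (A₀ + A)) (a : ℕ) (ha : a ∈ S) :
    ∑ b ∈ S.erase a, hh (dist' a b) ^ 2 ≤
      18 * Real.exp 1 * w ^ 2 * (S.card * (1 + Real.log (1 + Real.log ((A : ℝ) / S.card))) ^ 2) := by
  classical
  have hM : 1 ≤ S.card := card_pos.2 ⟨a, ha⟩
  have hMA : S.card ≤ A := by
    have := card_le_card hS
    rwa [Nat.card_Ioc, Nat.add_sub_cancel_left] at this
  have haI := mem_Ioc.1 (hS ha)
  have e : ∑ b ∈ S.erase a, hh (dist' a b) ^ 2 =
      ∑ b ∈ S.filter (fun b => a < b), hh (dist' a b) ^ 2 + ∑ b ∈ S.filter (fun b => b < a), hh (dist' a b) ^ 2 := by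
    rw [← sum_filter_add_sum_filter_not (S.erase a) (fun b => a < b)]
    congr 1
    · apply sum_congr _ (fun _ _ => rfl)
      ext b
      simp only [mem_filter, mem_erase]
      constructor
      · rintro ⟨⟨_, h2⟩, h3⟩; exact ⟨h2, h3⟩
      · rintro ⟨h2, h3⟩; exact ⟨⟨by omega, h2⟩, h3⟩
    · apply sum_congr _ (fun _ _ => rfl)
      ext b
      simp only [mem_filter, mem_erase]
      constructor
      · rintro ⟨⟨h1, h2⟩, h3⟩; exact ⟨h2, by omega⟩
      · rintro ⟨h2, h3⟩; exact ⟨⟨by omega, h2⟩, by omega⟩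
  have k1 : ∑ b ∈ S.filter (fun b => a < b), hh (dist' a b) ^ 2 ≤
      9 * Real.exp 1 * w ^ 2 * (S.card * (1 + Real.log (1 + Real.log ((A : ℝ) / S.card))) ^ 2) := by
    have h1 : ∑ b ∈ S.filter (fun b => a < b), hh (dist' a b) ^ 2 =
        ∑ m ∈ (S.filter (fun b => a < b)).image (fun b => dist' a b), hh m ^ 2 := by
      rw [sum_image]
      intro b hb c hc h
      rw [mem_coe, mem_filter] at hb hc
      simp only [dist'] at h
      omega
    rw [h1]
    apply avg_sq w hw hW A S.card hM hMA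
    · intro m hm
      rw [mem_image] at hm
      obtain ⟨b, hb, rfl⟩ := hm
      rw [mem_filter] at hb
      have := mem_Ioc.1 (hS hb.1)
      rw [mem_Icc]
      simp only [dist']
      omega
    · exact card_image_le.trans (card_le_card (filter_subset _ _))
  have k2 : ∑ b ∈ S.filter (fun b => b < a), hh (dist' a b) ^ 2 ≤
      9 * Real.exp 1 * w ^ 2 * (S.card * (1 + Real.log (1 + Real.log ((A : ℝ) / S.card))) ^ 2) := by
    have h1 : ∑ b ∈ S.filter (fun b => b < a), hh (dist' a b) ^ 2 =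
        ∑ m ∈ (S.filter (fun b => b < a)).image (fun b => dist' a b), hh m ^ 2 := by
      rw [sum_image]
      intro b hb c hc h
      rw [mem_coe, mem_filter] at hb hc
      simp only [dist'] at h
      omega
    rw [h1]
    apply avg_sq w hw hW A S.card hM hMA
    · intro m hm
      rw [mem_image] at hm
      obtain ⟨b, hb, rfl⟩ := hm
      rw [mem_filter] at hb
      have := mem_Ioc.1 (hS hb.1)
      rw [mem_Icc]
      simp only [dist']
      omega
    · exact card_image_le.trans (card_le_card (filter_subset _ _))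
  rw [e]
  linarith

end Pool.Agent.H563.QA
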