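import Pool.Agent.H563.QA.Loc
import Pool.Graph.R_seed8.Y151.HS.FLC
import Pool.Graph.R_seed8.Y79.HS.Den

/-!
# Numbers of the `n ≤ N` with `n ^ 2 + a` free of small prime factors
-/

set_option autoImplicit false

namespace Pool.Agent.H563.QA

open Finset
open Pool.Agent.Y843.HS (Pr VV Sv VV_split Pr_mem)
open Pool.Agent.Y843.AC (OK Av APs S_UPA)
open Pool.Agent.K4H8.DP

/-- the sieve bound with exponent `κ` and at most four classes -/
lemma sb4 (κ : ℝ) (hκ : 0 < κ) : ∃ C : ℝ, 0 < C ∧ ∃ X₀ : ℕ, ∀ X : ℕ, X₀ ≤ X → ∀ Z : ℕ → Finset ℕ, OK 4 κ X Z →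
    ∀ S ⊆ Ioc 0 X, (∀ n ∈ S, Av κ X Z n) → (S.card : ℝ) ≤ C * X * VV Z 0 ⌊(X : ℝ) ^ κ⌋₊ := by
  classical
  obtain ⟨C, hC, B, X₀, h0⟩ := Pool.Agent.Y843.AC.upa_all 4 1 κ le_rfl hκ
  refine ⟨C, hC, max X₀ 1, fun X hX Z hZ S hS hA => ?_⟩
  obtain ⟨D, hD⟩ : ∃ D : ℕ, D = ⌈Real.log X ^ B⌉₊ + 1 := ⟨_, rfl⟩
  have hD1 : Real.log X ^ B ≤ D := by
    rw [hD]
    push_cast
    linarith [Nat.le_ceil (Real.log X ^ B)]
  have hD0 : (0 : ℝ) < D := by
    rw [hD]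
    push_cast
    positivity
  have h1 := h0 X 0 D ((le_max_left _ _).trans hX) hD1 Z hZ S (by rwa [zero_add]) hA
  have h2 : (APs 1 D S).card = S.card * D := by
    have : APs 1 D S = S ×ˢ Icc 1 D := by
      unfold APs
      apply filter_true_of_mem
      intro q hq j hj
      have : j = 0 := by omega
      subst this
      rw [zero_mul, add_zero]
      exact (mem_product.1 hq).1
    rw [this, card_product, Nat.card_Icc, Nat.add_sub_cancel]
  rw [h2] at h1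
  push_cast at h1
  rw [pow_one] at h1
  have h3 : (S.card : ℝ) * D ≤ (C * X * VV Z 0 ⌊(X : ℝ) ^ κ⌋₊) * D := by
    calc (S.card : ℝ) * D ≤ C * X * D * VV Z 0 ⌊(X : ℝ) ^ κ⌋₊ := h1
      _ = _ := by ring
  exact le_of_mul_le_mul_right h3 hD0

/-- the local density of `n ^ 2 + a` -/
noncomputable def Va (a N : ℕ) : ℝ := VV (Za a) 0 N

lemma fac_bd {a p : ℕ} (hp : p.Prime) : 0 < 1 - ((Za a p).card : ℝ) / p ∧ 1 - ((Za a p).card : ℝ) / p ≤ 1 := by
  constructor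
  · linarith [ua_low (a := a) hp]
  · have : 0 ≤ ((Za a p).card : ℝ) / p := by positivity
    linarith

lemma VV_pos' (a x y : ℕ) : 0 < VV (Za a) x y := by
  unfold VV
  apply prod_pos
  intro p hp
  exact (fac_bd (Pr_mem.1 hp).2).1

lemma VV_le_one' (a x y : ℕ) : VV (Za a) x y ≤ 1 := by
  unfold VV
  apply prod_le_one
  · intro p hp
    exact (fac_bd (Pr_mem.1 hp).2).1.le
  · intro p hp
    exact (fac_bd (Pr_mem.1 hp).2).2

lemma Va_pos (a N : ℕ) : 0 < Va a N := VV_pos' a 0 N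

lemma Va_anti (a : ℕ) {x y : ℕ} (h : x ≤ y) : Va a y ≤ Va a x := by
  unfold Va
  rw [← VV_split (Za a) (Nat.zero_le x) h]
  have h1 := VV_pos' a 0 x
  have h2 := VV_le_one' a x y
  nlinarith

lemma Sv_Za (a x y : ℕ) : Sv 2 x y (Za a) := by
  intro p hp
  refine ⟨Za_card_two (Pr_mem.1 hp).2, ?_⟩
  intro c hc
  exact (mem_Za.1 hc).1

/-- the sieving limit does not matter -/
lemma Va_comp (κ : ℝ) (hκ : 0 < κ) : ∃ C : ℝ, 0 < C ∧ ∃ N₀ : ℕ, ∀ N : ℕ, N₀ ≤ N → ∀ a : ℕ,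
    VV (Za a) 0 ⌊(N : ℝ) ^ κ⌋₊ ≤ C * Va a N := by
  obtain ⟨L, hL⟩ : ∃ L : ℕ, L = ⌈2 / κ⌉₊ := ⟨_, rfl⟩
  obtain ⟨c, hc, R₀, h⟩ := Pool.Agent.Y79.HS.den 2 L
  obtain ⟨Y₀, hY₀, hr⟩ := Pool.Agent.H563.AG.root_k κ hκ
  have ev := (tendsto_rpow_atTop hκ).eventually (Filter.eventually_ge_atTop ((R₀ : ℝ) + 1))
  obtain ⟨x₀, hx₀⟩ := Filter.eventually_atTop.1 ev
  refine ⟨1 / c + 1, by positivity, max (max Y₀ ⌈x₀⌉₊) 1, fun N hN a => ?_⟩
  obtain ⟨r1, r2, r3⟩ := hr N ((le_max_left _ _).trans ((le_max_left _ _).trans hN))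
  have hx := hx₀ N ((Nat.le_ceil _).trans (by exact_mod_cast (le_max_right _ _).trans ((le_max_left _ _).trans hN)))
  have hN1 : 1 ≤ N := (le_max_right _ _).trans hN
  obtain ⟨y, hy⟩ : ∃ y, y = ⌊(N : ℝ) ^ κ⌋₊ := ⟨_, rfl⟩
  rw [← hy] at r1 r2 ⊢
  have hR : R₀ ≤ y := by
    rw [hy]
    apply Nat.le_floor
    linarith
  have hVN := Va_pos a N
  rcases le_or_gt y N with hyN | hyN
  · have hyL : N ≤ y ^ L := by
      have h1 : Real.log N ≤ Real.log ((y ^ L : ℕ) : ℝ) := by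
        push_cast
        rw [Real.log_pow]
        have h2 : 2 / κ ≤ L := by rw [hL]; exact Nat.le_ceil _
        have h3 : 0 ≤ Real.log y := by
          have : (0 : ℝ) ≤ κ / 2 * Real.log N := by positivity
          linarith
        calc Real.log N = 2 / κ * (κ / 2 * Real.log N) := by field_simp
          _ ≤ 2 / κ * Real.log y := mul_le_mul_of_nonneg_left r2 (by positivity)
          _ ≤ L * Real.log y := mul_le_mul_of_nonneg_right h2 h3
      have h2 := (Real.log_le_log_iff (by exact_mod_cast hN1) (by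
        have : 0 < y ^ L := pow_pos (by omega) _
        exact_mod_cast this)).1 h1
      exact_mod_cast h2
    have h1 := h y N hR hyL (Za a) (Sv_Za a y N)
    have h2 : VV (Za a) 0 y * VV (Za a) y N = Va a N := VV_split (Za a) (Nat.zero_le y) hyN
    have h3 := VV_pos' a 0 y
    have h4 : VV (Za a) 0 y * c ≤ Va a N := by
      rw [← h2]
      exact mul_le_mul_of_nonneg_left h1 h3.le
    have h5 : VV (Za a) 0 y ≤ 1 / c * Va a N := by
      rw [one_div_mul_eq_div, le_div_iff₀ hc]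
      exact h4
    linarith
  · have h1 : VV (Za a) 0 y ≤ Va a N := Va_anti a hyN.le
    have : 0 ≤ 1 / c * Va a N := by positivity
    linarith

/-- `n ^ 2 + a` has no prime factor up to `w` -/
def Rough (w : ℝ) (a n : ℕ) : Prop := ∀ l : ℕ, l.Prime → (l : ℝ) ≤ w → ¬ l ∣ n ^ 2 + a

lemma not_mem_Za {a l n : ℕ} (h : ¬ l ∣ n ^ 2 + a) : n % l ∉ Za a l := by
  intro h1
  apply h
  have h2 := (mem_Za.1 h1).2
  have h3 : n ^ 2 + a ≡ (n % l) ^ 2 + a [MOD l] := by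
    apply Nat.ModEq.add_right
    exact (Nat.ModEq.pow 2 (Nat.mod_modEq n l)).symm
  exact (Nat.ModEq.dvd_iff h3 (dvd_refl l)).2 h2

/-- the upper bounds -/
lemma ups (κ : ℝ) (hκ : 0 < κ) : ∃ K : ℝ, 0 < K ∧ ∃ N₀ : ℕ, 2 ≤ N₀ ∧ ∀ N : ℕ, N₀ ≤ N →
    (∀ a : ℕ, ∀ P ⊆ Ioc 0 N, (∀ n ∈ P, Rough ((N : ℝ) ^ κ) a n) → (P.card : ℝ) ≤ K * (N * Va a N)) ∧
    (∀ a b : ℕ, a ≠ b → ∀ P ⊆ Ioc 0 N, (∀ n ∈ P, Rough ((N : ℝ) ^ κ) a n ∧ Rough ((N : ℝ) ^ κ) b n) →
      (P.card : ℝ) ≤ K * ((N * Va a N) * (N * Va b N) / N * hh (dist' a b) ^ 2)) ∧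
    (∀ z : ℕ, 2 ≤ z → (z : ℝ) ≤ (N : ℝ) ^ κ → ∀ P ⊆ Ioc 0 N, (∀ n ∈ P, ∀ l : ℕ, l.Prime → 3 ≤ l → l ≤ z →
      n % l ≠ 1 ∧ n % l ≠ l - 1) → (P.card : ℝ) ≤ K * (N / Real.log z ^ 2)) := by
  classical
  obtain ⟨C, hC, X₀, hS⟩ := sb4 κ hκ
  obtain ⟨C₁, hC₁, N₁, hcomp⟩ := Va_comp κ hκ
  obtain ⟨a₀, b₀, ha₀, hb₀, hM⟩ := Pool.Agent.Results.MP_7b7e48_nt.DeletedPrimes.mert_ex
  refine ⟨C * C₁ + C * 122 * C₁ ^ 2 + C * 4 * (1 / a₀) ^ 2, by positivity, max (max X₀ N₁) 2, le_max_right _ _,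
    fun N hN => ?_⟩
  have hN0 : 2 ≤ N := (le_max_right _ _).trans hN
  have hNr : (0 : ℝ) < N := by exact_mod_cast (by omega : 0 < N)
  have hsv := hS N ((le_max_left _ _).trans ((le_max_left _ _).trans hN))
  have hcm := hcomp N ((le_max_right _ _).trans ((le_max_left _ _).trans hN))
  obtain ⟨y, hy⟩ : ∃ y, y = ⌊(N : ℝ) ^ κ⌋₊ := ⟨_, rfl⟩
  rw [← hy] at hsv hcm
  refine ⟨?_, ?_, ?_⟩
  · intro a P hP hPa
    have h1 := hsv (Za a) (by
      intro p hp _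
      exact ⟨(Za_card_two hp).trans (by norm_num), Za_card_lt hp, fun c hc => (mem_Za.1 hc).1⟩) P hP (by
      intro n hn l hl hlN
      exact not_mem_Za (hPa n hn l hl hlN))
    have h2 := hcm a
    have h3 := Va_pos a N
    calc (P.card : ℝ) ≤ C * N * VV (Za a) 0 y := h1
      _ ≤ C * N * (C₁ * Va a N) := mul_le_mul_of_nonneg_left h2 (by positivity)
      _ = (C * C₁) * (N * Va a N) := by ring
      _ ≤ _ := by
          apply mul_le_mul_of_nonneg_right _ (by positivity)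
          have : 0 ≤ C * 122 * C₁ ^ 2 + C * 4 * (1 / a₀) ^ 2 := by positivity
          linarith
  · intro a b hab P hP hPa
    have h1 := hsv (Zab a b) (by
      intro p hp _
      by_cases h3 : p ≤ 3
      · have e : Zab a b p = ∅ := by unfold Zab; rw [if_pos h3]
        rw [e]
        exact ⟨by simp, by rw [card_empty]; exact hp.pos, by simp⟩
      · have h4 : (Zab a b p).card ≤ 4 := by
          rw [Zab_eq (by omega)]
          have h1 := Za_card_two (a := a) hp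
          have h2 := Za_card_two (a := b) hp
          have h3 := card_union_le (Za a p) (Za b p)
          omega
        refine ⟨h4, ?_, ?_⟩
        · have : p ≠ 4 := by
            rintro rfl
            exact absurd hp (by norm_num)
          omega
        · intro c hc
          rw [Zab_eq (by omega), mem_union] at hc
          rcases hc with hc | hc
          · exact (mem_Za.1 hc).1
          · exact (mem_Za.1 hc).1) P hP (by
      intro n hn l hl hlN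
      by_cases h3 : l ≤ 3
      · have e : Zab a b l = ∅ := by unfold Zab; rw [if_pos h3]
        rw [e]
        exact notMem_empty _
      · rw [Zab_eq (by omega), mem_union]
        rintro (hc | hc)
        · exact not_mem_Za ((hPa n hn).1 l hl hlN) hc
        · exact not_mem_Za ((hPa n hn).2 l hl hlN) hc)
    have h2 := hcm a
    have h2' := hcm b
    have h3 := Va_pos a N
    have h3' := Va_pos b N
    have h4 := VVab hab y
    have h5 := VV_pos' a 0 y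
    have h5' := VV_pos' b 0 y
    obtain ⟨H, hH⟩ : ∃ H, H = hh (dist' a b) ^ 2 := ⟨_, rfl⟩
    rw [← hH] at h4 ⊢
    have hH0 : 0 ≤ H := by rw [hH]; positivity
    calc (P.card : ℝ) ≤ C * N * VV (Zab a b) 0 y := h1
      _ ≤ C * N * (122 * ((C₁ * Va a N) * (C₁ * Va b N) * H)) := by
          apply mul_le_mul_of_nonneg_left _ (by positivity)
          refine h4.trans ?_
          gcongr
      _ = (C * 122 * C₁ ^ 2) * ((N * Va a N) * (N * Va b N) / N * H) := by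
          field_simp
      _ ≤ _ := by
          apply mul_le_mul_of_nonneg_right _ (by positivity)
          have : 0 ≤ C * C₁ + C * 4 * (1 / a₀) ^ 2 := by positivity
          linarith
  · intro z hz hzN P hP hPz
    have hzy : z ≤ y := by
      rw [hy]
      exact Nat.le_floor hzN
    have h1 := hsv (Zr z) (by
      intro p hp _
      unfold Zr
      split_ifs with h
      · rw [card_pair (by omega)]
        refine ⟨by norm_num, by omega, ?_⟩
        intro c hc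
        rw [mem_insert, mem_singleton] at hc
        omega
      · exact ⟨by simp, by rw [card_empty]; exact hp.pos, by simp⟩) P hP (by
      intro n hn l hl hlN
      unfold Zr
      split_ifs with h
      · obtain ⟨g1, g2⟩ := hPz n hn l hl h.1 h.2
        rw [mem_insert, mem_singleton]
        rintro (g | g)
        · exact g1 g
        · exact g2 g
      · exact notMem_empty _)
    have h4 := VVr hzy
    have hlz : 0 < Real.log z := Real.log_pos (by exact_mod_cast (by omega : 1 < z))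
    have hWz : (W1 z)⁻¹ ≤ 1 / a₀ / Real.log z := by
      have h1 := (hM z hz).1
      have h3 : 1 / a₀ / Real.log z = (a₀ * Real.log z)⁻¹ := by
        field_simp
      rw [h3]
      exact inv_anti₀ (by positivity) h1
    have hWz0 : 0 < (W1 z)⁻¹ := inv_pos.2 (W1_pos z)
    calc (P.card : ℝ) ≤ C * N * VV (Zr z) 0 y := h1
      _ ≤ C * N * (4 * (1 / a₀ / Real.log z) ^ 2) := by
          apply mul_le_mul_of_nonneg_left _ (by positivity)
          refine h4.trans ?_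
          gcongr
      _ = (C * 4 * (1 / a₀) ^ 2) * (N / Real.log z ^ 2) := by
          field_simp
      _ ≤ _ := by
          apply mul_le_mul_of_nonneg_right _ (by positivity)
          have : 0 ≤ C * C₁ + C * 122 * C₁ ^ 2 := by positivity
          linarith

open Classical in
/-- the `n ≤ N` with `n ^ 2 + a` free of prime factors up to `N ^ κ` -/
noncomputable def RN (κ : ℝ) (a N : ℕ) : Finset ℕ := (Ioc 0 N).filter (fun n => Rough ((N : ℝ) ^ κ) a n)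

lemma mem_RN {κ : ℝ} {a N n : ℕ} : n ∈ RN κ a N ↔ (0 < n ∧ n ≤ N) ∧ Rough ((N : ℝ) ^ κ) a n := by
  classical
  unfold RN
  rw [mem_filter, mem_Ioc]

/-- the lower bound for `Va` -/
lemma Va_logs : ∃ w : ℝ, 0 < w ∧ ∀ a N : ℕ, 2 ≤ N → w / Real.log N ^ 3 ≤ Va a N := by
  obtain ⟨a₀, b₀, ha₀, hb₀, hM⟩ := Pool.Agent.Results.MP_7b7e48_nt.DeletedPrimes.mert_ex
  refine ⟨(1 / b₀) ^ 3, by positivity, fun a N hN => ?_⟩
  have h1 := (hM N hN).2
  have hl : 0 < Real.log N := Real.log_pos (by exact_mod_cast (by omega : 1 < N))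
  have h2 := Va_low a N
  refine le_trans ?_ h2
  have h3 : (1 / b₀) ^ 3 / Real.log N ^ 3 = ((b₀ * Real.log N)⁻¹) ^ 3 := by
    field_simp
  rw [h3]
  apply pow_le_pow_left₀ (by positivity)
  exact inv_anti₀ (W1_pos N) h1

/-- the lower bound for the number of the `n` with `n ^ 2 + a` free of small prime factors, for all `a` -/
lemma lows : ∃ κ : ℝ, 0 < κ ∧ κ ≤ 1 ∧ ∃ c : ℝ, 0 < c ∧ ∃ N₀ : ℕ, ∀ N : ℕ, N₀ ≤ N → ∀ a : ℕ,
    c * (N * Va a N) ≤ ((RN κ a N).card : ℝ) := by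
  classical
  obtain ⟨Cf, hCf, hflc⟩ := Pool.Agent.Y151.HS.flc
  obtain ⟨w, hw, hVa⟩ := Va_logs
  obtain ⟨s, hs⟩ : ∃ s, s = Cf * 3 := ⟨_, rfl⟩
  obtain ⟨D, hD⟩ : ∃ D, D = primorial s := ⟨_, rfl⟩
  have hD0 : 0 < D := by rw [hD]; exact primorial_pos s
  have hDr : (0 : ℝ) < D := by exact_mod_cast hD0
  obtain ⟨κ, hκ⟩ : ∃ κ : ℝ, κ = 1 / (8 * (Cf * s : ℕ)) := ⟨_, rfl⟩
  have hCs : 1 ≤ Cf * s := by
    rw [hs]
    nlinarith
  have hCsr : (1 : ℝ) ≤ ((Cf * s : ℕ) : ℝ) := by exact_mod_cast hCs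
  have hκ0 : 0 < κ := by rw [hκ]; positivity
  have hκ1 : κ ≤ 1 := by
    rw [hκ, div_le_one (by positivity)]
    linarith
  have ev1 := (tendsto_rpow_atTop hκ0).eventually (Filter.eventually_ge_atTop ((2 : ℝ) ^ (2 ^ (s + 1))))
  have ev2 := (isLittleO_log_rpow_rpow_atTop (3 : ℝ) (show (0 : ℝ) < 1 / 2 by norm_num)).bound
    (show (0 : ℝ) < w / (4 * D) by positivity)
  obtain ⟨x₀, hx₀⟩ := Filter.eventually_atTop.1 ((ev1.and ev2).and (Filter.eventually_ge_atTop (3 : ℝ)))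
  refine ⟨κ, hκ0, hκ1, 1 / (4 * D), by positivity, ⌈x₀⌉₊, fun N hN a => ?_⟩
  obtain ⟨⟨h1, h2⟩, h3⟩ := hx₀ N ((Nat.le_ceil _).trans (by exact_mod_cast hN))
  have hN3 : 3 ≤ N := by exact_mod_cast h3
  have hNr : (0 : ℝ) < N := by linarith
  have hlN : 0 < Real.log N := Real.log_pos (by linarith)
  -- the level
  have hex : ∃ J : ℕ, (N : ℝ) ^ κ ≤ (2 : ℝ) ^ (2 ^ J) := by
    obtain ⟨J, hJ⟩ := pow_unbounded_of_one_lt ((N : ℝ) ^ κ) (show (1 : ℝ) < 2 by norm_num)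
    refine ⟨J, hJ.le.trans ?_⟩
    exact pow_le_pow_right₀ (by norm_num) (Nat.lt_two_pow_self).le
  obtain ⟨J, hJ1, hJ2⟩ : ∃ J : ℕ, (N : ℝ) ^ κ ≤ (2 : ℝ) ^ (2 ^ J) ∧ ∀ i < J, ¬ (N : ℝ) ^ κ ≤ (2 : ℝ) ^ (2 ^ i) :=
    ⟨Nat.find hex, Nat.find_spec hex, fun i hi => Nat.find_min hex hi⟩
  have hJs : s + 1 ≤ J := by
    by_contra hcon
    push Not at hcon
    have h4 : (2 : ℝ) ^ (2 ^ J) < 2 ^ (2 ^ (s + 1)) := by
      apply pow_lt_pow_right₀ (by norm_num)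
      exact Nat.pow_lt_pow_right (by norm_num) hcon
    linarith
  have hJ3 : (2 : ℝ) ^ (2 ^ J) ≤ (N : ℝ) ^ (2 * κ) := by
    have h4 := hJ2 (J - 1) (by omega)
    push Not at h4
    have h5 : (2 : ℝ) ^ (2 ^ J) = ((2 : ℝ) ^ (2 ^ (J - 1))) ^ 2 := by
      rw [← pow_mul, ← pow_succ, show J - 1 + 1 = J by omega]
    have h6 : (N : ℝ) ^ (2 * κ) = ((N : ℝ) ^ κ) ^ 2 := by
      rw [mul_comm, Real.rpow_mul hNr.le, Real.rpow_two]
    rw [h5, h6]
    exact pow_le_pow_left₀ (by positivity) h4.le 2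
  obtain ⟨R, hR⟩ : ∃ R : ℕ, R = 2 ^ 2 ^ J := ⟨_, rfl⟩
  have hRr : ((R : ℕ) : ℝ) = (2 : ℝ) ^ (2 ^ J) := by rw [hR]; push_cast; rfl
  have hsR : s ≤ R := by
    rw [hR]
    have h4 : s < 2 ^ s := Nat.lt_two_pow_self
    have h5 : 2 ^ s ≤ 2 ^ 2 ^ J := by
      apply Nat.pow_le_pow_right (by norm_num)
      have : J < 2 ^ J := Nat.lt_two_pow_self
      omega
    omega
  have hRN : R ≤ N := by
    have h4 : (R : ℝ) ≤ N := by
      rw [hRr]
      refine hJ3.trans ?_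
      calc (N : ℝ) ^ (2 * κ) ≤ (N : ℝ) ^ (1 : ℝ) := by
            apply Real.rpow_le_rpow_of_exponent_le (by linarith)
            rw [hκ, mul_one_div, div_le_one (by positivity)]
            linarith
        _ = N := Real.rpow_one _
    exact_mod_cast h4
  -- the class modulo `D`
  obtain ⟨b₀, hb₀⟩ : ∃ b₀, b₀ = ∏ l ∈ (range (s + 1)).filter (fun l => l.Prime ∧ ¬ l ∣ a), l := ⟨_, rfl⟩
  have hb₀s : ∀ l : ℕ, l.Prime → l ≤ s → ¬ l ∣ b₀ ^ 2 + a := by
    intro l hl hls hd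
    by_cases hla : l ∣ a
    · have h4 : l ∣ b₀ ^ 2 := (Nat.dvd_add_left hla).1 hd
      have h5 : l ∣ b₀ := hl.dvd_of_dvd_pow h4
      rw [hb₀, Prime.dvd_finsetProd_iff hl.prime] at h5
      obtain ⟨q, hq, hlq⟩ := h5
      rw [mem_filter] at hq
      have h6 : l = q := (Nat.prime_dvd_prime_iff_eq hl hq.2.1).1 hlq
      rw [← h6] at hq
      exact hq.2.2 hla
    · have h4 : l ∣ b₀ := by
        rw [hb₀]
        apply dvd_prod_of_mem (fun l => l)
        rw [mem_filter, mem_range]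
        exact ⟨by omega, hl, hla⟩
      have h5 : l ∣ b₀ ^ 2 := dvd_pow h4 two_ne_zero
      exact hla ((Nat.dvd_add_right h5).1 hd)
  have hfl := hflc 2 s s J (by rw [hs]) (by rw [hs]) (Za a) (Sv_Za a s _) D b₀ 0 N hD0 (by
    intro p hp hpD
    rw [Pr_mem] at hp
    rw [hD, Nat.Prime.dvd_primorial_iff hp.2] at hpD
    omega)
  rw [zero_add, ← hR] at hfl
  obtain ⟨F, hF, hfl⟩ : ∃ F : Finset ℕ, (∀ x, x ∈ F ↔ (0 < x ∧ x ≤ N) ∧ x % D = b₀ % D ∧
      ∀ p ∈ Pr s R, x % p ∉ Za a p) ∧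
      |(F.card : ℝ) - (N : ℝ) / D * ∏ p ∈ Pr s R, (1 - ((Za a p).card : ℝ) / p)| ≤
      (1 / 2 : ℝ) ^ s * ((N : ℝ) / D * ∏ p ∈ Pr s R, (1 - ((Za a p).card : ℝ) / p)) + ((2 : ℝ) ^ 2 ^ J) ^ (Cf * s) :=
    ⟨_, fun x => (@Finset.mem_filter ℕ _ (_) _ x).trans (by rw [mem_Ioc]), hfl⟩
  have hsub : F ⊆ RN κ a N := by
    intro n hn
    rw [hF] at hn
    refine mem_RN.2 ⟨hn.1, ?_⟩
    intro l hl hlN hd
    have hlR : l ≤ R := by
      have : (l : ℝ) ≤ R := by rw [hRr]; linarith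
      exact_mod_cast this
    by_cases hls : l ≤ s
    · have hlD : l ∣ D := by
        rw [hD]
        exact (Nat.Prime.dvd_primorial_iff hl).2 hls
      have h4 : n ≡ b₀ [MOD l] := Nat.ModEq.of_dvd hlD hn.2.1
      apply hb₀s l hl hls
      have h5 : n ^ 2 + a ≡ b₀ ^ 2 + a [MOD l] := Nat.ModEq.add_right a (h4.pow 2)
      exact (Nat.ModEq.dvd_iff h5 (dvd_refl l)).1 hd
    · apply hn.2.2 l (Pr_mem.2 ⟨⟨by omega, hlR⟩, hl⟩)
      rw [mem_Za]
      refine ⟨Nat.mod_lt _ hl.pos, ?_⟩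
      have h5 : n ^ 2 + a ≡ (n % l) ^ 2 + a [MOD l] := by
        apply Nat.ModEq.add_right
        exact (Nat.ModEq.pow 2 (Nat.mod_modEq n l)).symm
      exact (Nat.ModEq.dvd_iff h5 (dvd_refl l)).1 hd
  have hcard : (F.card : ℝ) ≤ (RN κ a N).card := by exact_mod_cast card_le_card hsub
  refine le_trans ?_ hcard
  obtain ⟨V, hV⟩ : ∃ V, V = VV (Za a) s R := ⟨_, rfl⟩
  have hfl' : |(F.card : ℝ) - N / D * V| ≤ (1 / 2 : ℝ) ^ s * (N / D * V) + ((2 : ℝ) ^ 2 ^ J) ^ (Cf * s) := by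
    rw [hV]
    exact hfl
  have hVpos : 0 < V := by rw [hV]; exact VV_pos' a s R
  have hVa1 : Va a N ≤ V := by
    have h4 : Va a N ≤ Va a R := Va_anti a hRN
    have h5 : VV (Za a) 0 s * V = Va a R := by rw [hV]; exact VV_split (Za a) (Nat.zero_le s) hsR
    have h6 := VV_le_one' a 0 s
    have h7 := VV_pos' a 0 s
    nlinarith
  have hhalf : (1 / 2 : ℝ) ^ s ≤ 1 / 2 := by
    calc (1 / 2 : ℝ) ^ s ≤ (1 / 2) ^ 1 := pow_le_pow_of_le_one (by norm_num) (by norm_num) (by rw [hs]; omega)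
      _ = 1 / 2 := pow_one _
  have herr : ((2 : ℝ) ^ 2 ^ J) ^ (Cf * s) ≤ N / (4 * D) * Va a N := by
    have h4 : ((2 : ℝ) ^ 2 ^ J) ^ (Cf * s) ≤ (N : ℝ) ^ (1 / 4 : ℝ) := by
      calc ((2 : ℝ) ^ 2 ^ J) ^ (Cf * s) ≤ ((N : ℝ) ^ (2 * κ)) ^ (Cf * s) :=
            pow_le_pow_left₀ (by positivity) hJ3 _
        _ = (N : ℝ) ^ (2 * κ * (Cf * s : ℕ)) := by
            rw [← Real.rpow_natCast, ← Real.rpow_mul hNr.le]
        _ = (N : ℝ) ^ (1 / 4 : ℝ) := by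
            congr 1
            rw [hκ]
            field_simp
            norm_num
    have h5 : (N : ℝ) ^ (1 / 4 : ℝ) ≤ (N : ℝ) ^ (1 / 2 : ℝ) :=
      Real.rpow_le_rpow_of_exponent_le (by linarith) (by norm_num)
    rw [Real.norm_of_nonneg (by positivity), Real.norm_of_nonneg (by positivity)] at h2
    have h6 : Real.log N ^ 3 ≤ w / (4 * D) * (N : ℝ) ^ (1 / 2 : ℝ) := by
      have : Real.log N ^ (3 : ℝ) = Real.log N ^ 3 := by
        rw [← Real.rpow_natCast]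
        norm_num
      rwa [this] at h2
    have h7 := hVa a N (by omega)
    have h8 : (N : ℝ) ^ (1 / 2 : ℝ) * (N : ℝ) ^ (1 / 2 : ℝ) = N := by
      rw [← Real.rpow_add hNr]
      norm_num
    calc ((2 : ℝ) ^ 2 ^ J) ^ (Cf * s) ≤ (N : ℝ) ^ (1 / 2 : ℝ) := h4.trans h5
      _ ≤ (N : ℝ) / (4 * D) * (w / Real.log N ^ 3) := by
          rw [div_mul_div_comm, le_div_iff₀ (by positivity)]
          have h9 : (N : ℝ) ^ (1 / 2 : ℝ) * (4 * D * Real.log N ^ 3) ≤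
              (N : ℝ) ^ (1 / 2 : ℝ) * (4 * D * (w / (4 * D) * (N : ℝ) ^ (1 / 2 : ℝ))) := by gcongr
          refine h9.trans (le_of_eq ?_)
          have h10 : 4 * (D : ℝ) * (w / (4 * D) * (N : ℝ) ^ (1 / 2 : ℝ)) = w * (N : ℝ) ^ (1 / 2 : ℝ) := by
            field_simp
          rw [h10]
          calc (N : ℝ) ^ (1 / 2 : ℝ) * (w * (N : ℝ) ^ (1 / 2 : ℝ)) = w * ((N : ℝ) ^ (1 / 2 : ℝ) * (N : ℝ) ^ (1 / 2 : ℝ)) := by ring
            _ = N * w := by rw [h8]; ring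
      _ ≤ _ := mul_le_mul_of_nonneg_left h7 (by positivity)
  have hNV : N / D * Va a N ≤ N / D * V := mul_le_mul_of_nonneg_left hVa1 (by positivity)
  have hNV0 : 0 ≤ N / D * V := by positivity
  have habs := (abs_le.1 hfl').1
  have h10 : (1 / 2 : ℝ) ^ s * (N / D * V) ≤ 1 / 2 * (N / D * V) := mul_le_mul_of_nonneg_right hhalf hNV0
  have h11 : (N : ℝ) / (4 * D) * Va a N = 1 / 4 * (N / D * Va a N) := by
    field_simp
  have h12 : 1 / (4 * (D : ℝ)) * (N * Va a N) = 1 / 4 * (N / D * Va a N) := by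
    field_simp
  rw [h11] at herr
  rw [h12]
  linarith

end Pool.Agent.H563.QA
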