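import Pool.Agent.H563.AG.Sv
import Pool.Agent.H563.QA.Ave
import Pool.Graph.R_seed8.Y843.HS.PartA

/-!
# The local factors of `n ^ 2 + a`
-/

set_option autoImplicit false

namespace Pool.Agent.H563.QA

open Finset
open Pool.Agent.Y843.HS (Pr VV)
open Pool.Agent.Y843.AC (OK Av APs S_UPA)
open Pool.Agent.K4H8.DP

/-- the roots of `n ^ 2 + a` modulo `l` -/
def Za (a l : ℕ) : Finset ℕ := (range l).filter (fun n => l ∣ n ^ 2 + a)

lemma mem_Za {a l n : ℕ} : n ∈ Za a l ↔ n < l ∧ l ∣ n ^ 2 + a := by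
  unfold Za
  rw [mem_filter, mem_range]

/-- two roots are equal or opposite -/
lemma opp {a l n m : ℕ} (hl : l.Prime) (hn : n ∈ Za a l) (hm : m ∈ Za a l) : n = m ∨ n + m = l := by
  rw [mem_Za] at hn hm
  have h1 : (l : ℤ) ∣ ((n : ℤ) - m) * (n + m) := by
    have h2 : (l : ℤ) ∣ ((n ^ 2 + a : ℕ) : ℤ) := Int.natCast_dvd_natCast.2 hn.2
    have h3 : (l : ℤ) ∣ ((m ^ 2 + a : ℕ) : ℤ) := Int.natCast_dvd_natCast.2 hm.2
    have h4 := dvd_sub h2 h3
    push_cast at h4
    have e : ((n : ℤ) - m) * (n + m) = (n : ℤ) ^ 2 + a - (m ^ 2 + a) := by ring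
    rw [e]
    exact h4
  rcases (Nat.prime_iff_prime_int.1 hl).dvd_or_dvd h1 with h2 | h2
  · left
    have h3 := Int.emod_emod_of_dvd
    obtain ⟨k, hk⟩ := h2
    have h4 : |((n : ℤ) - m)| < l := by
      rw [abs_lt]
      constructor <;> omega
    rw [hk, abs_mul, abs_of_nonneg (show (0 : ℤ) ≤ l by positivity)] at h4
    have h5 : |k| < 1 := by
      by_contra hcon
      push Not at hcon
      nlinarith
    have h6 : k = 0 := by
      rw [abs_lt] at h5
      omega
    rw [h6] at hk
    omega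
  · obtain ⟨k, hk⟩ := h2
    by_cases h0 : n + m = 0
    · left; omega
    · right
      have hl0 : (0 : ℤ) < l := by exact_mod_cast hl.pos
      have h5 : 0 < k := by
        by_contra hcon
        push Not at hcon
        have : (l : ℤ) * k ≤ 0 := by nlinarith
        omega
      have h6 : k < 2 := by
        by_contra hcon
        push Not at hcon
        have : (l : ℤ) * 2 ≤ l * k := by nlinarith
        omega
      have h7 : k = 1 := by omega
      rw [h7] at hk
      omega

lemma Za_card_two {a l : ℕ} (hl : l.Prime) : (Za a l).card ≤ 2 := by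
  rcases (Za a l).eq_empty_or_nonempty with h | ⟨n, hn⟩
  · rw [h]; simp
  · have : Za a l ⊆ {n, l - n} := by
      intro m hm
      rw [mem_insert, mem_singleton]
      rcases opp hl hn hm with h | h
      · left; exact h.symm
      · right; omega
    exact (card_le_card this).trans card_le_two

lemma Za_card_lt {a l : ℕ} (hl : l.Prime) : (Za a l).card < l := by
  by_cases h : l = 2
  · subst h
    by_contra hcon
    push Not at hcon
    have h1 : Za a 2 = range 2 := by
      apply eq_of_subset_of_card_le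
      · unfold Za; exact filter_subset _ _
      · rwa [card_range]
    have h2 : 0 ∈ Za a 2 := by rw [h1]; simp
    have h3 : 1 ∈ Za a 2 := by rw [h1]; simp
    rw [mem_Za] at h2 h3
    omega
  · have h1 := Za_card_two (a := a) hl
    have h2 := hl.two_le
    omega

/-- the classes for two shifts, for the primes larger than `3` -/
def Zab (a b l : ℕ) : Finset ℕ := if l ≤ 3 then ∅ else (range l).filter (fun n => l ∣ n ^ 2 + a ∨ l ∣ n ^ 2 + b)

lemma Zab_eq {a b l : ℕ} (h : 3 < l) : Zab a b l = Za a l ∪ Za b l := by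
  unfold Zab Za
  rw [if_neg (by omega), filter_or]

/-- the classes for the exceptional numbers -/
def Zr (z l : ℕ) : Finset ℕ := if 3 ≤ l ∧ l ≤ z then {1, l - 1} else ∅

/-- the factor at the primes dividing `m`, squared -/
lemma uu_sq_one_le {l : ℕ} (hl : l.Prime) (m : ℕ) : 1 ≤ uu l m ^ 2 := by
  have := one_le_uu hl m
  nlinarith

lemma prod_uu_sq_le (y m : ℕ) (hm : 0 < m) : ∏ p ∈ (Ioc 0 y).filter Nat.Prime, uu p m ^ 2 ≤ hh m ^ 2 := by
  rw [prod_pow]
  apply pow_le_pow_left₀ _ (prod_uu_le y m hm)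
  exact prod_nonneg fun p hp => by linarith [one_le_uu (mem_filter.1 hp).2 m]

/-- the constant factors -/
noncomputable def cf (l : ℕ) : ℝ := if l ≤ 3 then 9 else ((l : ℝ) - 1) ^ 2 / (l * (l - 2))

lemma one_le_cf (l : ℕ) : 1 ≤ cf l := by
  unfold cf
  split_ifs with h
  · norm_num
  · have h4 : (4 : ℝ) ≤ l := by exact_mod_cast (by omega : 4 ≤ l)
    rw [le_div_iff₀ (by nlinarith)]
    nlinarith

lemma cf_prod (y : ℕ) : ∏ p ∈ (Ioc 0 y).filter Nat.Prime, cf p ≤ 122 := by
  classical
  have h1 : ∀ y : ℕ, 3 ≤ y → ∏ l ∈ Ioc 3 y, cf l = 3 * ((y : ℝ) - 1) / (2 * y) := by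
    intro y hy
    induction y, hy using Nat.le_induction with
    | base => norm_num
    | succ n hn ih =>
      rw [← Finset.insert_Ioc_right_eq_Ioc_add_one (by omega), prod_insert (by simp), ih]
      unfold cf
      rw [if_neg (by omega)]
      have hn3 : (3 : ℝ) ≤ n := by exact_mod_cast hn
      have hn0 : (n : ℝ) ≠ 0 := by linarith
      have hn1 : (n : ℝ) + 1 ≠ 0 := by linarith
      have hn2 : (n : ℝ) - 1 ≠ 0 := by linarith
      push_cast
      have e : (n : ℝ) + 1 - 2 = n - 1 := by ring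
      rw [e]
      field_simp
      ring
  have h2 : ∏ p ∈ (Ioc 0 y).filter Nat.Prime, cf p ≤ ∏ p ∈ ({2, 3} : Finset ℕ) ∪ Ioc 3 (y + 3), cf p := by
    apply prod_mono_one
    · intro p hp
      rw [mem_filter, mem_Ioc] at hp
      have := hp.2.two_le
      rw [mem_union, mem_insert, mem_singleton, mem_Ioc]
      omega
    · intro p _
      exact one_le_cf p
  refine h2.trans ?_
  rw [prod_union (by
    rw [disjoint_left]
    intro p hp hp2
    rw [mem_insert, mem_singleton] at hp
    rw [mem_Ioc] at hp2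
    omega), h1 (y + 3) (by omega)]
  have h3 : ∏ p ∈ ({2, 3} : Finset ℕ), cf p = 81 := by
    rw [prod_pair (by norm_num)]
    unfold cf
    norm_num
  rw [h3]
  have hy : (0 : ℝ) ≤ y := Nat.cast_nonneg _
  rw [mul_div_assoc', div_le_iff₀ (by push_cast; positivity)]
  push_cast
  nlinarith

lemma prime_two_div {l : ℕ} (hl : l.Prime) (h3 : 3 ≤ l) : (0 : ℝ) < 1 - 2 / (l : ℝ) := by
  have h : (3 : ℝ) ≤ l := by exact_mod_cast h3
  have : 2 / (l : ℝ) < 1 := by rw [div_lt_one (by linarith)]; linarith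
  linarith

/-- `1 - ν / l` -/
lemma ua_low {a l : ℕ} (hl : l.Prime) : 1 / 3 ≤ 1 - ((Za a l).card : ℝ) / l := by
  have hl0 : (0 : ℝ) < l := by exact_mod_cast hl.pos
  have h2 := hl.two_le
  rw [le_sub_comm, div_le_iff₀ hl0]
  by_cases h : l = 2
  · have h1 := Za_card_lt (a := a) hl
    have h3 : (Za a l).card ≤ 1 := by omega
    have h4 : ((Za a l).card : ℝ) ≤ 1 := by exact_mod_cast h3
    rw [h]
    rw [h] at h4
    push_cast
    linarith
  · have h1 := Za_card_two (a := a) hl
    have h4 : ((Za a l).card : ℝ) ≤ 2 := by exact_mod_cast h1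
    have h5 : (3 : ℝ) ≤ l := by exact_mod_cast (by omega : 3 ≤ l)
    linarith

/-- the local bound for two shifts -/
lemma locab {a b l : ℕ} (hl : l.Prime) : 1 - ((Zab a b l).card : ℝ) / l ≤
    (1 - ((Za a l).card : ℝ) / l) * (1 - ((Za b l).card : ℝ) / l) * cf l * uu l (dist' a b) ^ 2 := by
  have hl0 : (0 : ℝ) < l := by exact_mod_cast hl.pos
  have ha := ua_low (a := a) hl
  have hb := ua_low (a := b) hl
  have hu := uu_sq_one_le hl (dist' a b)
  have hc := one_le_cf l
  by_cases h3 : l ≤ 3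
  · have e : Zab a b l = ∅ := by unfold Zab; rw [if_pos h3]
    have ec : cf l = 9 := by unfold cf; rw [if_pos h3]
    rw [e, card_empty, Nat.cast_zero, zero_div, sub_zero, ec]
    have h1 : 1 / 9 ≤ (1 - ((Za a l).card : ℝ) / l) * (1 - ((Za b l).card : ℝ) / l) := by nlinarith
    have h2 : 1 ≤ (1 - ((Za a l).card : ℝ) / l) * (1 - ((Za b l).card : ℝ) / l) * 9 := by linarith
    nlinarith
  · have hl3 : 3 < l := by omega
    have hl4 : (4 : ℝ) ≤ l := by exact_mod_cast (by omega : 4 ≤ l)
    rw [Zab_eq hl3]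
    by_cases hd : l ∣ dist' a b
    · -- equal sets
      have hab : ∀ n : ℕ, l ∣ n ^ 2 + a ↔ l ∣ n ^ 2 + b := by
        intro n
        unfold dist' at hd
        rcases le_total a b with h | h
        · have e : a - b + (b - a) = b - a := by omega
          rw [e] at hd
          have e2 : n ^ 2 + b = n ^ 2 + a + (b - a) := by omega
          rw [e2]
          exact (Nat.dvd_add_left hd).symm
        · have e : a - b + (b - a) = a - b := by omega
          rw [e] at hd
          have e2 : n ^ 2 + a = n ^ 2 + b + (a - b) := by omega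
          rw [e2]
          exact Nat.dvd_add_left hd
      have e : Za b l = Za a l := by
        unfold Za
        apply filter_congr
        intro n _
        exact (hab n).symm
      rw [e, union_self]
      have e3 : uu l (dist' a b) = (1 - 1 / (l : ℝ))⁻¹ := by unfold uu; rw [if_pos hd]
      have e4 : cf l = ((l : ℝ) - 1) ^ 2 / (l * (l - 2)) := by unfold cf; rw [if_neg h3]
      rw [e3, e4]
      obtain ⟨u, hu'⟩ : ∃ u, u = 1 - ((Za a l).card : ℝ) / l := ⟨_, rfl⟩
      rw [← hu']
      have hu0 : 0 < u := by rw [hu']; linarith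
      have hulow : 1 - 2 / (l : ℝ) ≤ u := by
        rw [hu']
        have h4 : ((Za a l).card : ℝ) ≤ 2 := by exact_mod_cast Za_card_two (a := a) hl
        have := div_le_div_of_nonneg_right h4 hl0.le
        linarith
      have hk : ((l : ℝ) - 1) ^ 2 / (l * (l - 2)) * ((1 - 1 / (l : ℝ))⁻¹) ^ 2 = (1 - 2 / (l : ℝ))⁻¹ := by
        have g1 : (l : ℝ) - 1 ≠ 0 := by linarith
        have g2 : (l : ℝ) - 2 ≠ 0 := by linarith
        have g3 : 1 - 1 / (l : ℝ) = (l - 1) / l := by field_simp
        have g4 : 1 - 2 / (l : ℝ) = (l - 2) / l := by field_simp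
        rw [g3, g4]
        field_simp
      have h5 : u * u * (((l : ℝ) - 1) ^ 2 / (l * (l - 2))) * ((1 - 1 / (l : ℝ))⁻¹) ^ 2 = u * (u * (1 - 2 / (l : ℝ))⁻¹) := by
        rw [← hk]; ring
      rw [h5]
      have h6 : 1 ≤ u * (1 - 2 / (l : ℝ))⁻¹ := by
        rw [← div_eq_mul_inv, le_div_iff₀ (prime_two_div hl (by omega)), one_mul]
        exact hulow
      nlinarith
    · have hdisj : Disjoint (Za a l) (Za b l) := by
        rw [disjoint_left]
        intro n hn hn'
        rw [mem_Za] at hn hn'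
        apply hd
        unfold dist'
        rcases le_total a b with h | h
        · have e : a - b + (b - a) = (n ^ 2 + b) - (n ^ 2 + a) := by omega
          rw [e]
          exact Nat.dvd_sub hn'.2 hn.2
        · have e : a - b + (b - a) = (n ^ 2 + a) - (n ^ 2 + b) := by omega
          rw [e]
          exact Nat.dvd_sub hn.2 hn'.2
      rw [card_union_of_disjoint hdisj]
      push_cast
      have h5 : 1 - (((Za a l).card : ℝ) + (Za b l).card) / l ≤
          (1 - ((Za a l).card : ℝ) / l) * (1 - ((Za b l).card : ℝ) / l) := by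
        have e : (1 - ((Za a l).card : ℝ) / l) * (1 - ((Za b l).card : ℝ) / l) =
          1 - (((Za a l).card : ℝ) + (Za b l).card) / l + ((Za a l).card : ℝ) / l * ((Za b l).card / l) := by ring
        rw [e]
        have : 0 ≤ ((Za a l).card : ℝ) / l * ((Za b l).card / l) := by positivity
        linarith
      obtain ⟨P, hP⟩ : ∃ P, P = (1 - ((Za a l).card : ℝ) / l) * (1 - ((Za b l).card : ℝ) / l) := ⟨_, rfl⟩
      rw [← hP] at h5 ⊢
      have hP0 : 0 < P := by rw [hP]; nlinarith
      calc 1 - (((Za a l).card : ℝ) + (Za b l).card) / l ≤ P := h5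
        _ ≤ P * (cf l * uu l (dist' a b) ^ 2) := by
            have : 1 ≤ cf l * uu l (dist' a b) ^ 2 := one_le_mul_of_one_le_of_one_le hc hu
            nlinarith
        _ = _ := by ring

/-- the sieve product for two shifts -/
lemma VVab {a b : ℕ} (hab : a ≠ b) (y : ℕ) : VV (Zab a b) 0 y ≤ 122 * (VV (Za a) 0 y * VV (Za b) 0 y * hh (dist' a b) ^ 2) := by
  have hd : 0 < dist' a b := by unfold dist'; omega
  have hZ : ∀ p ∈ (Ioc 0 y).filter Nat.Prime, 0 ≤ 1 - ((Zab a b p).card : ℝ) / p := by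
    intro p hp
    have hpp := (mem_filter.1 hp).2
    have hp0 : (0 : ℝ) < p := by exact_mod_cast hpp.pos
    by_cases h3 : p ≤ 3
    · have e : Zab a b p = ∅ := by unfold Zab; rw [if_pos h3]
      rw [e]; simp
    · have h4 : (Zab a b p).card ≤ 4 := by
        rw [Zab_eq (by omega)]
        have h1 := Za_card_two (a := a) hpp
        have h2 := Za_card_two (a := b) hpp
        have h3 := card_union_le (Za a p) (Za b p)
        omega
      have h5 : ((Zab a b p).card : ℝ) / p ≤ 1 := by
        rw [div_le_one hp0]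
        have : (Zab a b p).card ≤ p := by omega
        exact_mod_cast this
      linarith
  unfold VV
  rw [Pr_eq]
  refine (prod_le_prod hZ (fun p hp => locab (mem_filter.1 hp).2)).trans ?_
  rw [prod_mul_distrib, prod_mul_distrib, prod_mul_distrib]
  have h1 := cf_prod y
  have h2 := prod_uu_sq_le y (dist' a b) hd
  have hp : ∀ a, 0 ≤ ∏ p ∈ (Ioc 0 y).filter Nat.Prime, (1 - ((Za a p).card : ℝ) / p) := fun a =>
    prod_nonneg fun p hp => by linarith [ua_low (a := a) (mem_filter.1 hp).2]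
  have h3 : 0 ≤ ∏ p ∈ (Ioc 0 y).filter Nat.Prime, uu p (dist' a b) ^ 2 := prod_nonneg fun p _ => sq_nonneg _
  obtain ⟨P, hP⟩ : ∃ P, P = (∏ p ∈ (Ioc 0 y).filter Nat.Prime, (1 - ((Za a p).card : ℝ) / p)) *
    (∏ p ∈ (Ioc 0 y).filter Nat.Prime, (1 - ((Za b p).card : ℝ) / p)) := ⟨_, rfl⟩
  rw [← hP]
  have hP0 : 0 ≤ P := by rw [hP]; exact mul_nonneg (hp a) (hp b)
  calc P * (∏ p ∈ (Ioc 0 y).filter Nat.Prime, cf p) * (∏ p ∈ (Ioc 0 y).filter Nat.Prime, uu p (dist' a b) ^ 2)
      ≤ P * 122 * hh (dist' a b) ^ 2 := by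
        apply mul_le_mul (mul_le_mul_of_nonneg_left h1 hP0) h2 h3 (by positivity)
    _ = _ := by ring

/-- the sieve product for the exceptional numbers -/
lemma VVr {z y : ℕ} (hzy : z ≤ y) : VV (Zr z) 0 y ≤ 4 * (W1 z)⁻¹ ^ 2 := by
  classical
  have hnn : ∀ p ∈ (Ioc 0 y).filter Nat.Prime, 0 ≤ 1 - ((Zr z p).card : ℝ) / p := by
    intro p hp
    have hpp := (mem_filter.1 hp).2
    have hp0 : (0 : ℝ) < p := by exact_mod_cast hpp.pos
    have h4 : (Zr z p).card ≤ 2 := by
      unfold Zr
      split_ifs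
      · exact card_le_two
      · simp
    have h5 : ((Zr z p).card : ℝ) / p ≤ 1 := by
      rw [div_le_one hp0]
      have := hpp.two_le
      have : (Zr z p).card ≤ p := by omega
      exact_mod_cast this
    linarith
  have hloc : ∀ p ∈ (Ioc 0 y).filter Nat.Prime, 1 - ((Zr z p).card : ℝ) / p ≤
      (if p ≤ z then (1 - 1 / (p : ℝ)) ^ 2 else 1) * (if p ≤ 2 then 4 else 1) := by
    intro p hp
    have hpp := (mem_filter.1 hp).2
    have hp0 : (0 : ℝ) < p := by exact_mod_cast hpp.pos
    have h2 := hpp.two_le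
    by_cases h3 : 3 ≤ p ∧ p ≤ z
    · have e : Zr z p = {1, p - 1} := by unfold Zr; rw [if_pos h3]
      have ec : (Zr z p).card = 2 := by rw [e]; exact card_pair (by omega)
      rw [ec, if_pos h3.2, if_neg (by omega), mul_one]
      push_cast
      have e2 : (1 - 1 / (p : ℝ)) ^ 2 = 1 - 2 / p + (1 / (p : ℝ)) ^ 2 := by ring
      rw [e2]
      have : 0 ≤ (1 / (p : ℝ)) ^ 2 := by positivity
      linarith
    · have e : Zr z p = ∅ := by unfold Zr; rw [if_neg h3]
      rw [e, card_empty, Nat.cast_zero, zero_div, sub_zero]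
      by_cases hz : p ≤ z
      · have hp2 : p = 2 := by omega
        rw [if_pos hz, if_pos (by omega), hp2]
        norm_num
      · rw [if_neg hz]
        split_ifs <;> norm_num
  unfold VV
  rw [Pr_eq]
  refine (prod_le_prod hnn hloc).trans ?_
  rw [prod_mul_distrib]
  have h1 : ∏ p ∈ (Ioc 0 y).filter Nat.Prime, (if p ≤ z then (1 - 1 / (p : ℝ)) ^ 2 else 1) = (W1 z)⁻¹ ^ 2 := by
    rw [← prod_filter, prod_pow, ← W1_prod]
    congr 1
    apply prod_congr _ (fun _ _ => rfl)
    ext p
    rw [mem_filter, mem_filter, mem_filter, mem_Ioc, mem_Ioc]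
    constructor
    · rintro ⟨⟨⟨a, b⟩, c⟩, d⟩
      exact ⟨⟨a, d⟩, c⟩
    · rintro ⟨⟨a, b⟩, c⟩
      exact ⟨⟨⟨a, by omega⟩, c⟩, b⟩
  have h2 : ∏ p ∈ (Ioc 0 y).filter Nat.Prime, (if p ≤ 2 then (4 : ℝ) else 1) ≤ 4 := by
    rw [← prod_filter, prod_const]
    have h : (((Ioc 0 y).filter Nat.Prime).filter (fun p => p ≤ 2)) ⊆ {2} := by
      intro p hp
      rw [mem_filter, mem_filter] at hp
      have := hp.1.2.two_le
      rw [mem_singleton]
      omega
    have h1 := card_le_card h
    rw [card_singleton] at h1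
    calc (4 : ℝ) ^ _ ≤ 4 ^ 1 := pow_le_pow_right₀ (by norm_num) h1
      _ = 4 := by norm_num
  rw [h1]
  have h3 : 0 ≤ (W1 z)⁻¹ ^ 2 := sq_nonneg _
  nlinarith

/-- the lower bound for the sieve product -/
lemma Va_low (a y : ℕ) : (W1 y)⁻¹ ^ 3 ≤ VV (Za a) 0 y := by
  unfold VV
  rw [Pr_eq, ← W1_prod, ← prod_pow]
  apply prod_le_prod
  · intro p hp
    have := vv_bd (mem_filter.1 hp).2
    have : 0 ≤ 1 - 1 / (p : ℝ) := by linarith
    positivity
  · intro p hp
    have hpp := (mem_filter.1 hp).2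
    have hp0 : (0 : ℝ) < p := by exact_mod_cast hpp.pos
    by_cases h : p = 2
    · have h1 := Za_card_lt (a := a) hpp
      have h3 : (Za a p).card ≤ 1 := by omega
      have h4 : ((Za a p).card : ℝ) ≤ 1 := by exact_mod_cast h3
      have h5 := div_le_div_of_nonneg_right h4 hp0.le
      rw [h] at h5 ⊢
      push_cast at h5 ⊢
      norm_num at h5 ⊢
      linarith
    · have h1 := Za_card_two (a := a) hpp
      have h2 := hpp.two_le
      have h4 : ((Za a p).card : ℝ) ≤ 2 := by exact_mod_cast h1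
      have h5 := div_le_div_of_nonneg_right h4 hp0.le
      have h6 : (3 : ℝ) ≤ p := by exact_mod_cast (by omega : 3 ≤ p)
      obtain ⟨v, hv⟩ : ∃ v, v = 1 / (p : ℝ) := ⟨_, rfl⟩
      have hv0 : 0 < v := by rw [hv]; positivity
      have hv3 : v ≤ 1 / 3 := by rw [hv]; exact one_div_le_one_div_of_le (by norm_num) h6
      have e2 : (2 : ℝ) / p = 2 * v := by rw [hv]; ring
      rw [e2] at h5
      rw [← hv]
      nlinarith [mul_pos hv0 hv0]

end Pool.Agent.H563.QA
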